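import Pool.Agent.H10.EllMain

set_option autoImplicit false

namespace Pool.Agent.Results.MP_f60174_an.NonUnique

open Pool.Agent.H10.Ell

/-- Q1 of MP_f60174_an is disproved: uniqueness fails for the coupled elliptic Dirichlet system. -/
theorem result : ∃ (n : ℕ) (_ : 1 < n) (D : Set (Fin n → ℝ))
    (AL : Fin n → Fin n → (Fin n → ℝ) → ℝ) (cL : (Fin n → ℝ) → ℝ)
    (AM : Fin n → Fin n → (Fin n → ℝ) → ℝ) (cM : (Fin n → ℝ) → ℝ)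
    (a b u v : (Fin n → ℝ) → ℝ),
    IsSmoothDomain D ∧ IsPosElliptic D AL cL ∧ IsPosElliptic D AM cM ∧
    SmoothUpTo ⊤ D a ∧ SmoothUpTo ⊤ D b ∧ (∀ p ∈ closure D, 0 < a p ∧ 0 < b p) ∧
    SmoothUpTo ⊤ D u ∧ SmoothUpTo ⊤ D v ∧ (∀ p ∈ frontier D, u p = 0 ∧ v p = 0) ∧
    (∀ p ∈ D, op AL cL u p + a p * v p = 0 ∧ -(b p * u p) + op AM cM v p = 0) ∧
    ∃ p ∈ D, u p ≠ 0 :=
  main

end Pool.Agent.Results.MP_f60174_an.NonUnique
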